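import Pool.Agent.helper87.FM.Spec

set_option autoImplicit false

namespace Pool.Agent.FM

open Polynomial Matrix Pool.Agent.helper42.NS Pool.Agent.FS

theorem EXC_ki2 (P : Pt) (t a k : ℕ) (H : Matrix (Fin t) (Fin t) ℤ)
    (hb : ∀ u ∈ EigK (KP P) (lamP P) H, u ≠ 0 →
      Set.ncard {b : Fin t → Bool | dotb b u = 0} * 2 ^ a ≤ 2 ^ t) :
    Set.ncard {B : Fin k → Fin t → Bool | Bad P H B} * 2 ^ (a * (k + 1 - crk P H)) ≤
      2 ^ k * 2 ^ (t * k) := by
  have := P.isMaximal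
  letI : Field (KP P) := Ideal.Quotient.field P.asIdeal
  exact KI2 (KP P) t a k (EigK (KP P) (lamP P) H) hb

theorem EXC : EXC_stmt := by
  intro a t p H ha hp hpa hsym hR ht hc
  -- the finite set of the relevant points
  have hfin : Set.Finite {P : Pt | Above p P ∧ crk P H ≠ 0} := by
    by_contra hinf
    obtain ⟨s, hs, hcard⟩ := Set.Infinite.exists_subset_card_eq (s := {P : Pt | Above p P ∧ crk P H ≠ 0})
      hinf (t + 1)
    have := PTP t H p hp hsym s (fun P hP => hs hP)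
    omega
  obtain ⟨F, hF⟩ := hfin.exists_finset_coe
  have hFm : ∀ P, P ∈ F ↔ (Above p P ∧ crk P H ≠ 0) := by
    intro P
    rw [← Finset.mem_coe, hF]
    rfl
  have hFc : F.card ≤ t := PTP t H p hp hsym F (fun P hP => (hFm P).1 hP)
  have hcov : {B : Fin 36 → Fin t → Bool | ∃ P : Pt, Above p P ∧ Bad P H B} ⊆
      ⋃ P ∈ F, {B : Fin 36 → Fin t → Bool | Bad P H B} := by
    rintro B ⟨P, hP, hB⟩
    rw [Set.mem_iUnion₂]
    exact ⟨P, (hFm P).2 ⟨hP, EXR_bad P t H _ B hB⟩, hB⟩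
  have hcard : Set.ncard {B : Fin 36 → Fin t → Bool | ∃ P : Pt, Above p P ∧ Bad P H B} ≤
      ∑ P ∈ F, Set.ncard {B : Fin 36 → Fin t → Bool | Bad P H B} := by
    refine (Set.ncard_le_ncard hcov (Set.toFinite _)).trans ?_
    exact Finset.set_ncard_biUnion_le F _
  have hbad : ∀ P ∈ F, Set.ncard {B : Fin 36 → Fin t → Bool | Bad P H B} * 2 ^ (13 * a) ≤
      2 ^ 36 * 2 ^ (t * 36) := by
    intro P hP
    have hab := ((hFm P).1 hP).1
    have hSm : ¬ Sm a P := by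
      rintro ⟨p', hp', hab', hlt⟩
      obtain ⟨-, p₀, -, -, huniq, -⟩ := FIN P
      have e1 := huniq p' hp' hab'
      have e2 := huniq p hp hab
      omega
    have h5 := EXC_ki2 P t a 36 H (fun u hu hu0 => T_LOA a t P u (by omega) hSm (hR P hSm u hu hu0))
    refine le_trans (Nat.mul_le_mul_left _ (Nat.pow_le_pow_right (by norm_num) ?_)) h5
    have h6 := hc P hab
    rw [mul_comm 13 a]
    exact Nat.mul_le_mul_left a (by omega)
  have hmul : Set.ncard {B : Fin 36 → Fin t → Bool | ∃ P : Pt, Above p P ∧ Bad P H B} * 2 ^ (13 * a) ≤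
      2 ^ (10 * a) * (2 ^ 46 * 2 ^ (36 * t)) := by
    calc Set.ncard {B : Fin 36 → Fin t → Bool | ∃ P : Pt, Above p P ∧ Bad P H B} * 2 ^ (13 * a)
        ≤ (∑ P ∈ F, Set.ncard {B : Fin 36 → Fin t → Bool | Bad P H B}) * 2 ^ (13 * a) :=
          Nat.mul_le_mul_right _ hcard
      _ = ∑ P ∈ F, Set.ncard {B : Fin 36 → Fin t → Bool | Bad P H B} * 2 ^ (13 * a) :=
          Finset.sum_mul _ _ _
      _ ≤ ∑ P ∈ F, 2 ^ 36 * 2 ^ (t * 36) := Finset.sum_le_sum hbad
      _ = F.card * (2 ^ 36 * 2 ^ (t * 36)) := by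
          rw [Finset.sum_const, smul_eq_mul]
      _ ≤ 2 ^ (10 * a + 10) * (2 ^ 36 * 2 ^ (t * 36)) := Nat.mul_le_mul_right _ (hFc.trans ht)
      _ = 2 ^ (10 * a) * (2 ^ 46 * 2 ^ (36 * t)) := by
          rw [pow_add 2 (10 * a) 10, mul_comm t 36, show (46 : ℕ) = 10 + 36 from rfl, pow_add 2 10 36]
          ring
  have h13 : (2 : ℕ) ^ (13 * a) = 2 ^ (3 * a) * 2 ^ (10 * a) := by
    rw [← pow_add]
    congr 1
    ring
  rw [h13, ← mul_assoc, mul_comm (2 ^ (10 * a))] at hmul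
  exact Nat.le_of_mul_le_mul_right hmul (by positivity)

end Pool.Agent.FM
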